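import Pool.Agent.helper17.HH.SpecR

/-!
# MP_07c750, PROJECT HH, row RML: products of multipliers
-/

open scoped Pointwise

set_option autoImplicit false

namespace Pool.Agent.HH

noncomputable section

/-- the covering number of a dilated set, upper bound -/
lemma RML_up (h : RCV_stmt) (d m : ℝ) (E : Finset ℝ) (hd : 0 < d) (h1 : 1 / 8 ≤ m) (h2 : m ≤ 8) :
    (cov d (dil m E) : ℝ) ≤ 10 * cov d E := by
  have hm : 0 < m := by linarith
  have e1 : cov d (dil m E) = cov (d / m) E := by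
    have := h.dl (d / m) m E hm
    rwa [mul_div_cancel₀ d hm.ne'] at this
  rw [e1]
  have h0 : (0 : ℝ) ≤ cov d E := Nat.cast_nonneg _
  rcases le_total 1 m with hm1 | hm1
  · have hle : d / m ≤ d := div_le_self hd.le hm1
    have h3 := h.fi (d / m) d E (div_pos hd hm) hle
    have h4 : d / (d / m) = m := by field_simp
    rw [h4] at h3
    nlinarith
  · have hle : d ≤ d / m := by
      rw [le_div_iff₀ hm]
      nlinarith
    have h3 := h.co d (d / m) E hd hle
    have h4 : (cov (d / m) E : ℝ) ≤ 2 * cov d E := by exact_mod_cast h3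
    linarith

/-- the covering number of a dilated set, lower bound -/
lemma RML_lo (h : RCV_stmt) (d m : ℝ) (E : Finset ℝ) (hd : 0 < d) (h1 : 1 / 8 ≤ m) (h2 : m ≤ 8) :
    (cov d E : ℝ) ≤ 10 * cov d (dil m E) := by
  have hm : 0 < m := by linarith
  have e1 : cov d (dil m E) = cov (d / m) E := by
    have := h.dl (d / m) m E hm
    rwa [mul_div_cancel₀ d hm.ne'] at this
  rw [e1]
  have h0 : (0 : ℝ) ≤ cov (d / m) E := Nat.cast_nonneg _
  rcases le_total 1 m with hm1 | hm1
  · have hle : d / m ≤ d := div_le_self hd.le hm1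
    have h3 := h.co (d / m) d E (div_pos hd hm) hle
    have h4 : (cov d E : ℝ) ≤ 2 * cov (d / m) E := by exact_mod_cast h3
    linarith
  · have hle : d ≤ d / m := by
      rw [le_div_iff₀ hm]
      nlinarith
    have h3 := h.fi d (d / m) E hd hle
    have h4 : d / m / d = 1 / m := by field_simp
    rw [h4] at h3
    have h5 : 1 / m ≤ 8 := by
      rw [div_le_iff₀ hm]
      linarith
    nlinarith

lemma RML_dil_sub (m m' : ℝ) (G : Finset ℝ) : dil m G - dil (m * m') G = dil m (G - dil m' G) := by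
  ext x
  simp only [dil, Finset.mem_sub, Finset.mem_image]
  constructor
  · rintro ⟨_, ⟨g, hg, rfl⟩, _, ⟨g', hg', rfl⟩, rfl⟩
    exact ⟨g - m' * g', ⟨g, hg, m' * g', ⟨g', hg', rfl⟩, rfl⟩, by ring⟩
  · rintro ⟨_, ⟨g, hg, _, ⟨g', hg', rfl⟩, rfl⟩, rfl⟩
    exact ⟨m * g, ⟨g, hg, rfl⟩, m * m' * g', ⟨g', hg', rfl⟩, by ring⟩

lemma RML_neg_sub (A B : Finset ℝ) : B - A = dil (-1) (A - B) := by
  ext x
  simp only [dil, Finset.mem_sub, Finset.mem_image]
  constructor
  · rintro ⟨b, hb, a, ha, rfl⟩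
    exact ⟨a - b, ⟨a, ha, b, hb, rfl⟩, by ring⟩
  · rintro ⟨_, ⟨a, ha, b, hb, rfl⟩, rfl⟩
    exact ⟨b, hb, a, ha, by ring⟩

/-- **Row RML.** -/
theorem RML_proof (h : RCV_stmt) (h1 : RRU_stmt) : RML_stmt := by
  refine ⟨800, by norm_num, ?_⟩
  intro d K m m' G hd hK hG hm1 hm2 _ _ hm hm'
  have hK0 : 0 ≤ K := by linarith
  have hpos : (0 : ℝ) < cov d G := by
    have := h.po d G hG
    exact_mod_cast this
  have hlo := RML_lo h d m G hd hm1 hm2
  constructor
  · have e1 := h1 d G (dil m G) (dil (m * m') G)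
    rw [RML_dil_sub] at e1
    have e2 : (cov d (G - dil (m * m') G) : ℝ) * cov d (dil m G) ≤
        8 * (cov d (G - dil m G) * cov d (dil m (G - dil m' G))) := by exact_mod_cast e1
    have e3 := RML_up h d m (G - dil m' G) hd hm1 hm2
    have e4 : (cov d (dil m (G - dil m' G)) : ℝ) ≤ 10 * (K * cov d G) := by linarith
    have e5 : (cov d (G - dil m G) : ℝ) * cov d (dil m (G - dil m' G)) ≤ (K * cov d G) * (10 * (K * cov d G)) :=
      mul_le_mul hm e4 (Nat.cast_nonneg _) (by positivity)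
    have e6 : (cov d (G - dil (m * m') G) : ℝ) * cov d G ≤ cov d (G - dil (m * m') G) * (10 * cov d (dil m G)) :=
      mul_le_mul_of_nonneg_left hlo (Nat.cast_nonneg _)
    have e7 : (cov d (G - dil (m * m') G) : ℝ) * cov d G ≤ (800 * K ^ 2 * cov d G) * cov d G := by nlinarith
    exact le_of_mul_le_mul_right e7 hpos
  · have e1 := h1 d G (dil m G) G
    rw [RML_neg_sub G (dil m G)] at e1
    have e2 : (cov d (G - G) : ℝ) * cov d (dil m G) ≤
        8 * (cov d (G - dil m G) * cov d (dil (-1) (G - dil m G))) := by exact_mod_cast e1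
    have e3 : (cov d (dil (-1) (G - dil m G)) : ℝ) ≤ 2 * cov d (G - dil m G) := by
      exact_mod_cast h.ng d (G - dil m G)
    have e4 : (cov d (dil (-1) (G - dil m G)) : ℝ) ≤ 2 * (K * cov d G) := by linarith
    have e5 : (cov d (G - dil m G) : ℝ) * cov d (dil (-1) (G - dil m G)) ≤ (K * cov d G) * (2 * (K * cov d G)) :=
      mul_le_mul hm e4 (Nat.cast_nonneg _) (by positivity)
    have e6 : (cov d (G - G) : ℝ) * cov d G ≤ cov d (G - G) * (10 * cov d (dil m G)) :=
      mul_le_mul_of_nonneg_left hlo (Nat.cast_nonneg _)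
    have e8 : (0 : ℝ) ≤ K ^ 2 * (cov d G : ℝ) * cov d G := by positivity
    have e7 : (cov d (G - G) : ℝ) * cov d G ≤ (800 * K ^ 2 * cov d G) * cov d G := by nlinarith
    exact le_of_mul_le_mul_right e7 hpos

end

end Pool.Agent.HH
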